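import Pool.Agent.U365.POW.J
import Pool.Agent.Results.MP_05f553_nt.MultiplicativeValues

/-!
# Philippon's inequality for the rationals with a coordinate near `s(m)`, `m - φ(m)` or `a m + b f(m)`

Let `s(m)` be the sum of the proper divisors of `m`. Let `G` be a function with steps bounded below by a positive constant and
growth at most `v ^ d`, for example `G v = v`. For a set of `m` of lower density at least `1 - e`, for EVERY integer `n` with
`|n - G (s(m))| ≤ s(m) ^ κ`, Philippon's inequality holds
(1) if `e = 2 A d / α + κ < 1`: for ALL `x` and all `y` of height at most `n ^ A` with numerator `± n` or denominator `n`;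
(2) if `e = d (2 γ + A / (α B)) + κ < 1` (every `α ≥ 1` is allowed): for all `x` of height at most `T n ^ γ` and these `y`;
and the same holds for `m - φ(m)`. More precisely this holds for almost all `m` with a divisor `≥ m ^ (e + ρ)` which is a prime or
the product of two different primes, and for the values `g = a m + b f(m)` of multiplicative functions with `f p = p + c` at the
primes, uniformly in `|a|, |b| ≤ N ^ δ` and with a power saving in the number of the exceptional `m`.

Proof. The number of the exceptional `n` has a power saving (starting theorem). Let `m = k v p` with large primes `p ≠ v`. Then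
`g = A' v p + B' (v + p) + B' c`, `A' = a k + b f(k)`, `B' = b c f(k)`, and so `(A' v + B') (A' p + B') = A' g + B'² - A' B' c`: for
given `g`, `k`, `a`, `b` there are only `N^o(1)` possibilities for `p` and `v`.

If the exponent `e` is smaller than `1/2`, no divisor is needed: the property holds for almost all `m` (for all `m ≤ N` but at
most `N / (log N) ^ A`, for every `A`), for all `α ≠ 0`, `β`. Here we use the divisors `D` of `m` without small prime factors:
`α m` is congruent to `g` modulo `f(D)`; if the size of all such `D` is inconvenient, then `m = R D` where the prime factors of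
`D` are so large that `D` lies in a short interval which is given by `R` and `g`.
-/

set_option autoImplicit false

namespace Pool.Agent.Results.MP_05f553_nt.AliquotValues

open Finset
open Pool.Agent.U365.POW (Law law_nat law_mono)
open Pool.Agent.N733.TG (Expanding)
open Pool.Agent.Results.MP_05f553_nt.MultiplicativeValues (hgt Good good_iff BadG countG)

/-- For EVERY integer `n` with `|n - G g| ≤ g ^ κ` the inequality holds for ALL `x ≠ 0` and all `y ≠ 0` of height at most `n ^ A`
with numerator `± n` or denominator `n`. -/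
def Near (B : ℕ) (α β ε A : ℝ) (G : ℕ → ℝ) (κ : ℝ) (g : ℕ) : Prop :=
  ∀ n : ℕ, |(n : ℝ) - G g| ≤ (g : ℝ) ^ κ → ∀ x : ℚ, x ≠ 0 → Good B α β ε A x n

/-- The same for all `x ≠ 0` of height at most `T n ^ γ`. -/
def NearSmall (B : ℕ) (α β ε A T γ : ℝ) (G : ℕ → ℝ) (κ : ℝ) (g : ℕ) : Prop :=
  ∀ n : ℕ, |(n : ℝ) - G g| ≤ (g : ℝ) ^ κ → ∀ x : ℚ, x ≠ 0 → hgt x ≤ T * (n : ℝ) ^ γ → Good B α β ε A x n

/-- **Theorem.** Let `α ≥ 1`, `β ≥ 0`, `ε < 1/2`, `ε B ≥ 2`, `A ≥ 1`, `κ ≥ 0`, and let `G` have steps `≥ a > 0` and growth at most
`v^d`. (1) Let `e = 2 A d / α + κ < 1`. The property `Near` holds for the values of similar functions as the aliquot sum with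
the exponent `e` (`Law`): if this exponent is smaller than `1/2`, then (1) for ALL `a m + b f(m)` at almost all `m`, and so for
`s(m)` and `m - φ(m)` for almost all `m`; in general, (2) at almost all the `m` with a divisor `≥ m ^ (e + ρ)` which is a prime
or the product of two different primes, and for `s(m)` and `m - φ(m)` for a set of `m` of lower density at least `1 - (e)`. (2)
If `e = d (2 γ + A / (α B)) + κ < 1` (`T` any constant, `γ ≥ 0`), the same is true of the property `NearSmall`. -/
theorem result (B : ℕ) (α β ε A κ : ℝ) (hα : 1 ≤ α) (hβ : 0 ≤ β) (hε : ε < 1 / 2) (hB : 2 ≤ ε * B) (hA : 1 ≤ A)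
    (hκ : 0 ≤ κ) : ∀ (G : ℕ → ℝ) (d : ℝ), Expanding G d →
      (2 * A * d / α + κ < 1 →
        Law (2 * A * d / α + κ) (Near B α β ε A G κ)) ∧
      (∀ T γ : ℝ, 0 ≤ γ → d * (2 * γ + A / (α * B)) + κ < 1 →
        Law (d * (2 * γ + A / (α * B)) + κ) (NearSmall B α β ε A T γ G κ)) := by
  intro G d hG
  have hA0 : 0 < A := by linarith
  have hα0 : 0 < α := by linarith
  refine ⟨fun h1 => ?_, fun T γ hγ h1 => ?_⟩
  · have he : d * (A * (2 / α)) = 2 * A * d / α := by ring
    have a := law_nat (SequenceHeights.Bad B α β ε A) hG (s := A * (2 / α)) (by positivity) hκ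
      (by
        rw [he]
        exact h1) (fun δ hδ => by
        obtain ⟨C, hC⟩ := SequenceHeights.count B α β ε A hα hβ hε hB hA δ hδ
        refine ⟨C, fun X hX => le_trans (le_of_eq ?_) (hC X hX)⟩
        congr!)
    rw [he] at a
    have hm : ∀ g : ℕ, (∀ n : ℕ, |(n : ℝ) - G g| ≤ (g : ℝ) ^ κ → 1 ≤ n ∧ n ∉ SequenceHeights.Bad B α β ε A) →
        Near B α β ε A G κ g := by
      intro g hg n hn x hx
      by_contra hcon
      exact (hg n hn).2 ⟨x, hx, fun h => hcon ((good_iff _ _ _ _ _ _ _).2 h)⟩
    exact law_mono a hm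
  · have hT' : (1 : ℝ) ≤ max T 1 := le_max_right _ _
    have a := law_nat (BadG B α β ε A (max T 1) γ) hG (s := 2 * γ + A / (α * B))
      (by positivity) hκ h1 (fun δ hδ => by
        obtain ⟨C, hC⟩ := countG B α β ε A (max T 1) γ hα hβ hε hB hA hT' hγ δ hδ
        refine ⟨C, fun X hX => le_trans (le_of_eq ?_) (hC X hX)⟩
        congr!)
    have hm : ∀ g : ℕ, (∀ n : ℕ, |(n : ℝ) - G g| ≤ (g : ℝ) ^ κ → 1 ≤ n ∧ n ∉ BadG B α β ε A (max T 1) γ) →
        NearSmall B α β ε A T γ G κ g := by
      intro g hg n hn x hx hh
      by_contra hcon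
      refine (hg n hn).2 ⟨x, hx, hh.trans ?_, hcon⟩
      exact mul_le_mul_of_nonneg_right (le_max_left _ _) (by positivity)
    exact law_mono a hm

end Pool.Agent.Results.MP_05f553_nt.AliquotValues
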