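import Pool.Agent.U536.CF.F
import Pool.Agent.Results.MP_05f553_nt.MultiplicativeValues

/-!
# Philippon's inequality for all rationals with a coordinate near an integer with a large common factor with a value of a multiplicative function

Let `f` be a positive multiplicative function of at most polynomial growth such that `f p ≤ M p` for the large primes `p`,
with different values at different large primes; for example Euler's function or the sum of the divisors. Let `G` have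
steps bounded below by a positive constant and growth at most `v^d`, for example `α v^d`. Let `b < 1` and `0 ≤ c < 2 b -
1`. For all `m ≤ N` but `N exp (-(log N)^c)`, for EVERY integer `w ≥ exp ((log N)^b)` with `gcd(w, f(m)) ≥ w^ρ`, for EVERY
integer `n` with `|n - G w| ≤ w^κ` Philippon's inequality holds for all `y ≠ 0` of height at most `n^A` with numerator `±
n` or denominator `n`, and (1) ALL `x ≠ 0`, if `2 A d / α + κ < ρ`; (2) all `x ≠ 0` of height at most `T n^γ`, if `d (2 γ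
+ A / (α B)) + κ < ρ` (`T` any constant, `γ ≥ 0`), if `α ≥ 1`, `β ≥ 0`, `ε < 1/2`, `ε B ≥ 2`, `A ≥ 1`, `κ ≥ 0`, `ρ ≤ 1`.
The integers `w` include all large divisors of `f(m)` and their multiples by small integers; for Euler's function, the
orders of the elements of the group of units modulo `m`.

Proof. Write `m = k u` with `u` squarefree and composed of primes larger than `N^(1/J)`, `J = (log N)^a`, and `k ≤ exp (4
(log N)^a)`; this is possible for all `m ≤ N` but very few. If `v ∣ f(k) f(u)`, then `v = g v'` with `g ∣ f(k)` and `v' ∣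
∏ f(p)`, and the number of such `u ≤ N / k` is at most `N / (k v')` times `(log N)^O(J)` times the number `τ_J(v')` of the
ordered factorizations of `v'` into `J` factors. The inequality `τ_J^q ≤ τ_K` for `K ≥ J^q` and Hölder's inequality bound
the sum over the sparse set of the exceptional `v`. The file `MultiplicativeValues` of the starting library treats the
integers `w = f(m)`, with `N / (log N)^U` exceptions.
-/

set_option autoImplicit false

namespace Pool.Agent.Results.MP_05f553_nt.CommonFactors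

open Finset
open Pool.Agent.N733.TG (LM Expanding lm_totient lm_sigma expanding_pow)
open Pool.Agent.U536.CF (Common common_win_nat common_of_dvd common_order)
open Pool.Agent.Results.MP_05f553_nt.MultiplicativeValues (hgt Good good_iff BadG countG)

/-- **Philippon's inequality for all rationals with a coordinate near an integer with a large common factor with a value of a
multiplicative function.** Let `f` be multiplicative and positive, of at most polynomial growth, with `f p ≤ M p` at the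
large primes, and injective there. Let `G` have steps `≥ a > 0` and growth at most `v^d`. Let `b < 1` and `0 ≤ c < 2 b -
1`, `α ≥ 1`, `β ≥ 0`, `ε < 1/2`, `ε B ≥ 2`, `A ≥ 1`, `κ ≥ 0`, `ρ ≤ 1`. For all large `N`, for all `m ≤ N` but `N exp
(-(log N)^c)`, for EVERY integer `w ≥ exp ((log N)^b)` with `gcd(w, f(m)) ≥ w^ρ`, for EVERY integer `n` with `|n - G w| ≤
w^κ` Philippon's inequality holds for all `y ≠ 0` of height at most `n^A` with numerator `± n` or denominator `n`, and (1)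
ALL `x ≠ 0`, if `2 A d / α + κ < ρ`; (2) all `x ≠ 0` of height at most `T n^γ`, if `d (2 γ + A / (α B)) + κ < ρ` (`T` any
constant, `γ ≥ 0`). All divisors `w ≥ exp ((log N)^b)` of `f(m)` are such integers `w`, and for Euler's function the
orders `≥ exp ((log N)^b)` of the units modulo `m`. Euler's function and the sum of the divisors are examples of `f`, and
`α v^d` with `α > 0`, `d ≥ 1` is an example of `G`. -/
theorem result :
    (∀ (B : ℕ) (α β ε A κ : ℝ), 1 ≤ α → 0 ≤ β → ε < 1 / 2 → 2 ≤ ε * B → 1 ≤ A → 0 ≤ κ →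
      ∀ f : ℕ → ℕ, LM f → ∀ (G : ℕ → ℝ) (d : ℝ), Expanding G d → ∀ ρ b c : ℝ, ρ ≤ 1 → b < 1 → 0 ≤ c → c < 2 * b - 1 →
      (2 * A * d / α + κ < ρ → ∃ N₀ : ℕ, ∀ N : ℕ, N₀ ≤ N →
        ({m : ℕ | 1 ≤ m ∧ m ≤ N ∧ ¬ ∀ w : ℕ, Common f b ρ N m w → ∀ n : ℕ, |(n : ℝ) - G w| ≤ (w : ℝ) ^ κ →
          ∀ x : ℚ, x ≠ 0 → Good B α β ε A x n}.ncard : ℝ) ≤ N * Real.exp (-(Real.log N ^ c))) ∧
      (∀ T γ : ℝ, 0 ≤ γ → d * (2 * γ + A / (α * B)) + κ < ρ → ∃ N₀ : ℕ, ∀ N : ℕ, N₀ ≤ N →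
        ({m : ℕ | 1 ≤ m ∧ m ≤ N ∧ ¬ ∀ w : ℕ, Common f b ρ N m w → ∀ n : ℕ, |(n : ℝ) - G w| ≤ (w : ℝ) ^ κ →
          ∀ x : ℚ, x ≠ 0 → hgt x ≤ T * (n : ℝ) ^ γ → Good B α β ε A x n}.ncard : ℝ) ≤
          N * Real.exp (-(Real.log N ^ c)))) ∧
    (LM Nat.totient ∧ LM (fun m => ∑ d ∈ m.divisors, d)) ∧
    (∀ α d : ℝ, 0 < α → 1 ≤ d → Expanding (fun v => α * (v : ℝ) ^ d) d) ∧
    (∀ (f : ℕ → ℕ) (b ρ : ℝ) (N m w : ℕ), ρ ≤ 1 → Real.exp (Real.log N ^ b) ≤ (w : ℝ) → w ∣ f m → Common f b ρ N m w) ∧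
    ∀ (b ρ : ℝ) (N m : ℕ), ρ ≤ 1 → ∀ x : (ZMod m)ˣ, Real.exp (Real.log N ^ b) ≤ (orderOf x : ℝ) →
      Common Nat.totient b ρ N m (orderOf x) := by
  refine ⟨?_, ⟨lm_totient, lm_sigma⟩, fun α d hα hd => expanding_pow hα hd, fun f b ρ N m w hρ hw hd => common_of_dvd hρ hw hd,
    fun b ρ N m hρ x hx => common_order hρ x hx⟩
  intro B α β ε A κ hα hβ hε hB hA hκ f hf G d hG ρ b c hρ hb hc hcb
  have hA0 : 0 < A := by linarith
  have hα0 : 0 < α := by linarith
  refine ⟨fun h1 => ?_, fun T γ hγ h1 => ?_⟩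
  · obtain ⟨N₀, hN₀⟩ := common_win_nat (SequenceHeights.Bad B α β ε A) hf hG (s := A * (2 / α)) (by positivity) hκ
      (by
        have : d * (A * (2 / α)) + κ = 2 * A * d / α + κ := by ring
        rw [this]
        exact h1) hρ hb hc hcb (fun δ hδ => by
        obtain ⟨C, hC⟩ := SequenceHeights.count B α β ε A hα hβ hε hB hA δ hδ
        refine ⟨C, fun X hX => le_trans (le_of_eq ?_) (hC X hX)⟩
        congr!)
    refine ⟨N₀, fun N hN => le_trans ?_ (hN₀ N hN)⟩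
    have hsub : {m : ℕ | 1 ≤ m ∧ m ≤ N ∧ ¬ ∀ w : ℕ, Common f b ρ N m w → ∀ n : ℕ, |(n : ℝ) - G w| ≤ (w : ℝ) ^ κ →
        ∀ x : ℚ, x ≠ 0 → Good B α β ε A x n} ⊆ {m : ℕ | 1 ≤ m ∧ m ≤ N ∧ ∃ w : ℕ, Common f b ρ N m w ∧
        ∃ n : ℕ, (n = 0 ∨ n ∈ SequenceHeights.Bad B α β ε A) ∧ |(n : ℝ) - G w| ≤ (w : ℝ) ^ κ} := by
      rintro m ⟨h2, h3, h4⟩
      push Not at h4
      obtain ⟨w, hw, n, hn, x, hx, hg⟩ := h4
      exact ⟨h2, h3, w, hw, n, Or.inr ⟨x, hx, fun h => hg ((good_iff _ _ _ _ _ _ _).2 h)⟩, hn⟩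
    have hfin : {m : ℕ | 1 ≤ m ∧ m ≤ N ∧ ∃ w : ℕ, Common f b ρ N m w ∧
        ∃ n : ℕ, (n = 0 ∨ n ∈ SequenceHeights.Bad B α β ε A) ∧ |(n : ℝ) - G w| ≤ (w : ℝ) ^ κ}.Finite :=
      (Set.finite_Icc 1 N).subset fun m hm => ⟨hm.1, hm.2.1⟩
    exact_mod_cast Set.ncard_le_ncard hsub hfin
  · have hT' : (1 : ℝ) ≤ max T 1 := le_max_right _ _
    obtain ⟨N₀, hN₀⟩ := common_win_nat (BadG B α β ε A (max T 1) γ) hf hG (s := 2 * γ + A / (α * B))
      (by positivity) hκ h1 hρ hb hc hcb (fun δ hδ => by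
        obtain ⟨C, hC⟩ := countG B α β ε A (max T 1) γ hα hβ hε hB hA hT' hγ δ hδ
        refine ⟨C, fun X hX => le_trans (le_of_eq ?_) (hC X hX)⟩
        congr!)
    refine ⟨N₀, fun N hN => le_trans ?_ (hN₀ N hN)⟩
    have hsub : {m : ℕ | 1 ≤ m ∧ m ≤ N ∧ ¬ ∀ w : ℕ, Common f b ρ N m w → ∀ n : ℕ, |(n : ℝ) - G w| ≤ (w : ℝ) ^ κ →
        ∀ x : ℚ, x ≠ 0 → hgt x ≤ T * (n : ℝ) ^ γ → Good B α β ε A x n} ⊆
        {m : ℕ | 1 ≤ m ∧ m ≤ N ∧ ∃ w : ℕ, Common f b ρ N m w ∧ ∃ n : ℕ, (n = 0 ∨ n ∈ BadG B α β ε A (max T 1) γ) ∧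
          |(n : ℝ) - G w| ≤ (w : ℝ) ^ κ} := by
      rintro m ⟨h2, h3, h4⟩
      push Not at h4
      obtain ⟨w, hw, n, hn, x, hx, hh, hg⟩ := h4
      refine ⟨h2, h3, w, hw, n, Or.inr ⟨x, hx, hh.trans ?_, hg⟩, hn⟩
      exact mul_le_mul_of_nonneg_right (le_max_left _ _) (by positivity)
    have hfin : {m : ℕ | 1 ≤ m ∧ m ≤ N ∧ ∃ w : ℕ, Common f b ρ N m w ∧ ∃ n : ℕ, (n = 0 ∨ n ∈ BadG B α β ε A (max T 1) γ) ∧
        |(n : ℝ) - G w| ≤ (w : ℝ) ^ κ}.Finite :=
      (Set.finite_Icc 1 N).subset fun m hm => ⟨hm.1, hm.2.1⟩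
    exact_mod_cast Set.ncard_le_ncard hsub hfin

end Pool.Agent.Results.MP_05f553_nt.CommonFactors
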