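import Pool.Agent.U449.BV.C
import Pool.Agent.Results.MP_05f553_nt.MultiplicativeValues

/-!
# Philippon's inequality for the rationals with a coordinate near `f(a, b) + g(a) + h(b)`, `a`, `b` in arbitrary sets

Let `f(x, y)` be an integer polynomial with a monomial which contains both variables, `A`, `B` ARBITRARY finite sets of at least
`X ^ δ` integers, and `g`, `h` ARBITRARY real functions such that `|f(a, b) + g(a) + h(b)| ≤ X` on `A × B`. For all the pairs
`(a, b)`, apart from a proportion of at most `X ^ (-ρ)`, for EVERY integer `n` with `|n - (f(a, b) + g(a) + h(b))| ≤ X ^ κ`,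
Philippon's inequality holds
(1) if `2 A / α + κ < δ`: for ALL `x` and all `y` of height at most `n ^ A` with numerator `± n` or denominator `n`;
(2) if `2 γ + A / (α B) + κ < δ` (every `α ≥ 1` is allowed): for all `x` of height at most `T n ^ γ` and these `y`.
The same holds for the values of all functions `F(a, b)` of two variables with few coincidences (`Rare`); `ρ > 0` depends only on
the exponents, and how large `X` has to be depends only on the exponents and the degree of `f`.

Since `A`, `B`, `g` and `h` are arbitrary, the values have no arithmetic structure, and a value can be taken by very many pairs. So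
the number of the exceptional `n` (starting theorems) does not give the result directly. Proof: the inequality of Cauchy and
Schwarz; for most pairs `a, a'` the difference `F(a, b) - F(a', b)` is small for few `b` (`Pool.Agent.U449.BV`).
-/

set_option autoImplicit false

namespace Pool.Agent.Results.MP_05f553_nt.MixedPolynomials

open Finset
open Pool.Agent.U449.BV (Rare OnProducts on_products_nat rare_poly)
open Pool.Agent.Results.MP_05f553_nt.MultiplicativeValues (hgt Good good_iff BadG countG)

/-- For EVERY integer `n` with `|n - x₀| ≤ W` the inequality holds for ALL `x ≠ 0` and all `y ≠ 0` of height at most `n ^ A`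
with numerator `± n` or denominator `n`. -/
def Near (B : ℕ) (α β ε A : ℝ) (W x₀ : ℝ) : Prop :=
  ∀ n : ℕ, |(n : ℝ) - x₀| ≤ W → ∀ x : ℚ, x ≠ 0 → Good B α β ε A x n

/-- The same for all `x ≠ 0` of height at most `T n ^ γ`. -/
def NearSmall (B : ℕ) (α β ε A T γ : ℝ) (W x₀ : ℝ) : Prop :=
  ∀ n : ℕ, |(n : ℝ) - x₀| ≤ W → ∀ x : ℚ, x ≠ 0 → hgt x ≤ T * (n : ℝ) ^ γ → Good B α β ε A x n

/-- **Theorem.** Let `α ≥ 1`, `β ≥ 0`, `ε < 1/2`, `ε B ≥ 2`, `A ≥ 1`, `κ ≥ 0`. (1) The property `Near`, with windows of length
`X ^ κ`, holds for almost all values of functions of two variables with few coincidences, on arbitrary finite sets of at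
least `X ^ δ` elements, `δ > 2 A / α + κ` (`OnProducts`). (2) The same is true of `NearSmall` for `δ > 2 γ + A / (α B) + κ` (`T`
any constant, `γ ≥ 0`). (3) Coincidences are rare for `f(a, b) + g(a) + h(b)`, where `f` is any integer polynomial with a monomial
which contains both variables, and `g` and `h` are arbitrary real functions, on arbitrary finite sets of integers. -/
theorem result :
    (∀ (B : ℕ) (α β ε A κ : ℝ), 1 ≤ α → 0 ≤ β → ε < 1 / 2 → 2 ≤ ε * B → 1 ≤ A → 0 ≤ κ →
      OnProducts (2 * A / α + κ) κ (Near B α β ε A) ∧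
      ∀ T γ : ℝ, 0 ≤ γ → OnProducts (2 * γ + A / (α * B) + κ) κ (NearSmall B α β ε A T γ)) ∧
    ∀ (d : ℕ) (f : MvPolynomial (Fin 2) ℤ), f.totalDegree ≤ d → (∃ m ∈ f.support, m 0 ≠ 0 ∧ m 1 ≠ 0) →
      ∀ (g h : ℤ → ℝ) (A B : Finset ℤ),
        Rare d A B (fun a b => ((MvPolynomial.eval ![a, b] f : ℤ) : ℝ) + g a + h b) := by
  refine ⟨fun B α β ε A κ hα hβ hε hB hA hκ => ?_, fun d f hd hf g h A B => rare_poly hd hf g h A B⟩
  have hA0 : 0 < A := by linarith
  have hα0 : 0 < α := by linarith
  refine ⟨?_, fun T γ hγ => ?_⟩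
  · have he : A * (2 / α) = 2 * A / α := by ring
    have a := on_products_nat (SequenceHeights.Bad B α β ε A) (s := A * (2 / α)) (κ := κ) (by positivity) hκ
      (fun δ hδ => by
        obtain ⟨C, hC⟩ := SequenceHeights.count B α β ε A hα hβ hε hB hA δ hδ
        refine ⟨C, fun X hX => le_trans (le_of_eq ?_) (hC X hX)⟩
        congr!)
    rw [he] at a
    refine a.mono fun W x₀ _ hg n hn x hx => ?_
    by_contra hcon
    exact (hg n hn).2 ⟨x, hx, fun h => hcon ((good_iff _ _ _ _ _ _ _).2 h)⟩
  · have hT' : (1 : ℝ) ≤ max T 1 := le_max_right _ _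
    have a := on_products_nat (BadG B α β ε A (max T 1) γ) (s := 2 * γ + A / (α * B)) (κ := κ)
      (by positivity) hκ (fun δ hδ => by
        obtain ⟨C, hC⟩ := countG B α β ε A (max T 1) γ hα hβ hε hB hA hT' hγ δ hδ
        refine ⟨C, fun X hX => le_trans (le_of_eq ?_) (hC X hX)⟩
        congr!)
    refine a.mono fun W x₀ _ hg n hn x hx hh => ?_
    by_contra hcon
    refine (hg n hn).2 ⟨x, hx, hh.trans ?_, hcon⟩
    exact mul_le_mul_of_nonneg_right (le_max_left _ _) (by positivity)

end Pool.Agent.Results.MP_05f553_nt.MixedPolynomials
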