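import Pool.Agent.U405.RS.F3
import Pool.Agent.Results.MP_05f553_nt.MultiplicativeValues

/-!
# Philippon's inequality for the rationals with a coordinate near values of `f` at thin sets of arguments

Let `f` be a positive multiplicative function of at most polynomial growth which for each `a ≥ 1` is injective at the
powers `p ^ a` of the large primes and at most `M p ^ a` there; for example Euler's function or the sum of the divisors.
Let `G` be a function with steps bounded below by a positive constant and growth at most `v ^ d`. For EVERY integer `n`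
with `|n - G (f v)| ≤ f(v) ^ κ` Philippon's inequality holds
(1) with `e = 2 A d / α + κ`: for ALL `x` and all `y` of height at most `n ^ A` with numerator `± n` or denominator `n`;
(2) with `e = d (2 γ + A / (α B)) + κ` (every `α ≥ 1` is allowed): for all `x` of height at most `T n ^ γ` and these `y`;
for almost all `v` (with a saving of any power of the logarithm) in each of these sets:

* the values of any integer polynomial without repeated roots, of degree `< 1 / e`;
* the shifted primes `p + a`, `a` any integer, if `e < 1`;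
* the intervals `(x, x + y]`, `x^τ ≤ y ≤ x`, for every `τ > e`, `τ ≤ 1`.

For instance this applies to the rationals `y` with denominator `φ(p - 1)` or `σ(p + 1)`, `p` prime.

Proof. The number of the exceptional `n` has a power saving (starting theorems). They are avoided by the tool
`Pool.Agent.U405.RS` of helper405: let `S` be a set of at least `N^(θ + δ)` integers up to `N` with at most `B g^ω(k) |S|
/ k` multiples of `k` for every `k ≤ N^δ`, and let `W` have at most `C X^θ` elements up to `X`; then `f(m) ∈ W` for at
most `|S| / (log N)^U` of the `m` in `S` (Rankin's method, and `w` free of small primes is determined by `f(w)` up to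
`N^o(1)` possibilities). The starting file `MultiplicativeValues` treats the `m ≤ N`.
-/

set_option autoImplicit false

namespace Pool.Agent.Results.MP_05f553_nt.SparseArguments

open Pool.Agent.N733.TG (Expanding expanding_pow)
open Pool.Agent.U405.RS (PM Sparse sparse_win examples)
open Pool.Agent.Results.MP_05f553_nt.MultiplicativeValues (hgt Good good_iff BadG countG)

/-- For EVERY integer `n` with `|n - G g| ≤ g ^ κ` the inequality holds for ALL `x ≠ 0` and all `y ≠ 0` of height at most `n ^ A`
with numerator `± n` or denominator `n`. -/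
def Near (B : ℕ) (α β ε A : ℝ) (G : ℕ → ℝ) (κ : ℝ) (g : ℕ) : Prop :=
  ∀ n : ℕ, |(n : ℝ) - G g| ≤ (g : ℝ) ^ κ → ∀ x : ℚ, x ≠ 0 → Good B α β ε A x n

/-- The same for all `x ≠ 0` of height at most `T n ^ γ`. -/
def NearSmall (B : ℕ) (α β ε A T γ : ℝ) (G : ℕ → ℝ) (κ : ℝ) (g : ℕ) : Prop :=
  ∀ n : ℕ, |(n : ℝ) - G g| ≤ (g : ℝ) ^ κ → ∀ x : ℚ, x ≠ 0 → hgt x ≤ T * (n : ℝ) ^ γ → Good B α β ε A x n

lemma good_zero (B : ℕ) (α β ε A : ℝ) (x : ℚ) : Good B α β ε A x 0 := by
  intro y hy _ _ h _
  rcases h with h | h
  · exact absurd (Rat.num_eq_zero.1 (Int.natAbs_eq_zero.1 h)) hy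
  · exact absurd h y.den_nz

/-- **Philippon's inequality near `G (f v)` for the `v` in thin sets.** Let `α ≥ 1`, `β ≥ 0`, `ε < 1/2`, `ε B ≥ 2`, `A ≥ 1`,
`κ ≥ 0`, `f` in the class `PM`, `G` with steps `≥ const > 0` and growth at most `v^d`, `U` any. (1) The property `Near`
holds in the sense `Sparse e f`, `e = 2 A d / α + κ`. (2) For `T` any, `γ ≥ 0` the property `NearSmall` holds in the sense
`Sparse e f`, `e = d (2 γ + A / (α B)) + κ`. (`Sparse e f`: with a saving of `(log x)^U` it holds at `f v` for almost all
`v` among the positive values of every integer polynomial without repeated roots of degree `< 1 / e`; among the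
shifted primes `p + a` for every `a`, if `e < 1`; and in all intervals `(x, x + y]`, `x^τ ≤ y ≤ x`, `e < τ ≤ 1`.) Euler's
function, the sum of the divisors and the identity are in the class `PM`, and `a v^d` with `a > 0`, `d ≥ 1` is an
example of `G`. -/
theorem result (B : ℕ) (α β ε A κ : ℝ) (hα : 1 ≤ α) (hβ : 0 ≤ β) (hε : ε < 1 / 2) (hB : 2 ≤ ε * B) (hA : 1 ≤ A)
    (hκ : 0 ≤ κ) :
    (∀ f : ℕ → ℕ, PM f → ∀ (G : ℕ → ℝ) (d : ℝ), Expanding G d → ∀ U : ℕ,
      Sparse (2 * A * d / α + κ) f (Near B α β ε A G κ) U ∧
      ∀ T γ : ℝ, 0 ≤ γ → Sparse (d * (2 * γ + A / (α * B)) + κ) f (NearSmall B α β ε A T γ G κ) U) ∧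
    (PM Nat.totient ∧ PM (fun m => ∑ d ∈ m.divisors, d) ∧ PM (fun m => m)) ∧
    ∀ a d : ℝ, 0 < a → 1 ≤ d → Expanding (fun v => a * (v : ℝ) ^ d) d := by
  have hA0 : 0 < A := by linarith
  have hα0 : 0 < α := by linarith
  refine ⟨fun f hf G d hG U => ⟨?_, fun T γ hγ => ?_⟩, examples, fun a d ha hd => expanding_pow ha hd⟩
  · have he : d * (A * (2 / α)) = 2 * A * d / α := by ring
    have a := sparse_win (SequenceHeights.Bad B α β ε A) hf hG (s := A * (2 / α)) (by positivity) hκ (fun δ hδ => by
        obtain ⟨C, hC⟩ := SequenceHeights.count B α β ε A hα hβ hε hB hA δ hδ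
        refine ⟨C, fun X hX => le_trans (le_of_eq ?_) (hC X hX)⟩
        congr!) U
    rw [he] at a
    refine a.imp (fun g hg n hn x hx => ?_)
    rcases Nat.eq_zero_or_pos n with h0 | h0
    · rw [h0]
      exact good_zero B α β ε A x
    · by_contra hcon
      exact hg n h0 ⟨x, hx, fun h => hcon ((good_iff _ _ _ _ _ _ _).2 h)⟩ hn
  · have hT' : (1 : ℝ) ≤ max T 1 := le_max_right _ _
    have a := sparse_win (BadG B α β ε A (max T 1) γ) hf hG (s := 2 * γ + A / (α * B))
      (by positivity) hκ (fun δ hδ => by
        obtain ⟨C, hC⟩ := countG B α β ε A (max T 1) γ hα hβ hε hB hA hT' hγ δ hδ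
        refine ⟨C, fun X hX => le_trans (le_of_eq ?_) (hC X hX)⟩
        congr!) U
    refine a.imp (fun g hg n hn x hx hh => ?_)
    rcases Nat.eq_zero_or_pos n with h0 | h0
    · rw [h0]
      exact good_zero B α β ε A x
    · by_contra hcon
      refine hg n h0 ⟨x, hx, hh.trans ?_, hcon⟩ hn
      exact mul_le_mul_of_nonneg_right (le_max_left _ _) (by positivity)

end Pool.Agent.Results.MP_05f553_nt.SparseArguments
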